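import Mathlib
import Pool.Agent.TH933.CycCount2

set_option autoImplicit false

/-!
The number of cycles of the 3x+1 map on the integers, counted by their number of elements and by
their linear form `p log 2 - o log 3`.
-/

namespace Pool.Agent.Results.MP_edb5be_nt.FewCycles

/-- The 3x+1 map on the integers. -/
def T (x : ℤ) : ℤ := if x % 2 = 0 then x / 2 else (3 * x + 1) / 2

/-- `Z` is a cycle of `T`. -/
def IsCycle (Z : Finset ℤ) : Prop :=
  ∃ (x : ℤ) (p : ℕ), 1 ≤ p ∧ T^[p] x = x ∧ Z = (Finset.range p).image fun i => T^[i] x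

/-- The number of odd elements of `Z`. -/
def odds (Z : Finset ℤ) : ℕ := (Z.filter fun x => x % 2 = 1).card

/-- `S` is finite and has at most `B` elements. -/
def AtMost (S : Set (Finset ℤ)) (B : ℝ) : Prop := S.Finite ∧ (S.ncard : ℝ) ≤ B

/-- For every `η < 1` larger than the base-two binary entropy `0.94995...` of `log 2 / log 3` there is
`C` such that (a cycle has `p` elements, `o` of them odd):
(1) for every `lam > 0` at most `C lam ^ (-η)` cycles satisfy `|p log 2 - o log 3| ≥ lam`;
(2) for infinitely many `P` there are at most `C P ^ η` cycles with at most `P` elements, and for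
every `a`, apart from at most `C P ^ η` exceptions, all cycles with between `a` and `a + P` elements
have the same number of elements and the same number of odd elements;
(3) for every `P ≥ 1` there are coprime `1 ≤ q ≤ P` and `r` such that, apart from at most `C P ^ η`
exceptions, all cycles with at most `P` elements satisfy `o / p = r / q`; and for every `a` there is
`c` such that, apart from at most `C P ^ η` exceptions, all cycles with between `a` and `a + P`
elements satisfy `q o - r p = c`.
The exponent `η = 0.951` is admissible. -/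
theorem result :
    (∀ η : ℝ, Real.binEntropy (Real.log 2 / Real.log 3) / Real.log 2 < η → η < 1 → ∃ C : ℝ,
      (∀ lam : ℝ, 0 < lam →
        AtMost {Z | IsCycle Z ∧ lam ≤ |(Z.card : ℝ) * Real.log 2 - odds Z * Real.log 3|}
          (C * lam ^ (-η))) ∧
      (∃ᶠ P : ℕ in Filter.atTop, AtMost {Z | IsCycle Z ∧ Z.card ≤ P} (C * (P : ℝ) ^ η) ∧
        ∀ a : ℕ, ∃ p o : ℕ, AtMost {Z | IsCycle Z ∧ a ≤ Z.card ∧ Z.card ≤ a + P ∧
          ¬ (Z.card = p ∧ odds Z = o)} (C * (P : ℝ) ^ η)) ∧
      (∀ P : ℕ, 1 ≤ P → ∃ (q : ℕ) (r : ℤ), 1 ≤ q ∧ q ≤ P ∧ IsCoprime (q : ℤ) r ∧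
        AtMost {Z | IsCycle Z ∧ Z.card ≤ P ∧ (q : ℤ) * odds Z ≠ r * Z.card} (C * (P : ℝ) ^ η) ∧
        ∀ a : ℕ, ∃ c : ℤ, AtMost {Z | IsCycle Z ∧ a ≤ Z.card ∧ Z.card ≤ a + P ∧
          (q : ℤ) * odds Z - r * Z.card ≠ c} (C * (P : ℝ) ^ η))) ∧
    Real.binEntropy (Real.log 2 / Real.log 3) / Real.log 2 < 0.951 := by
  refine ⟨?_, Pool.Agent.H319R2.beta_lt⟩
  intro η hη hη1
  have h3 := Pool.Agent.TH933.Cyc.log3_gt
  have h2 : 0 < Real.log 2 := Real.log_pos (by norm_num)
  have hent : 0 ≤ Real.binEntropy (Real.log 2 / Real.log 3) / Real.log 2 := by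
    apply div_nonneg _ h2.le
    apply Real.binEntropy_nonneg (by positivity)
    rw [div_le_one (by linarith)]
    exact Real.log_le_log (by norm_num) (by norm_num)
  exact Pool.Agent.TH933.Cyc.main η hη (lt_of_le_of_lt hent hη) hη1

end Pool.Agent.Results.MP_edb5be_nt.FewCycles
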