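import Pool.Agent.TH930.SP.Loc

set_option autoImplicit false

/-!
The integers which lie on cycles of the 3x+1 map: uniform sparsity in all intervals with an exponent
strictly below the entropy exponent.
-/

namespace Pool.Agent.Results.MP_edb5be_nt.LocalSparsityBelowEntropy

/-- The 3x+1 map on the integers. -/
def T (x : ℤ) : ℤ := if x % 2 = 0 then x / 2 else (3 * x + 1) / 2

/-- `x` lies on a cycle of `T`. -/
def OnCycle (x : ℤ) : Prop := ∃ p : ℕ, 1 ≤ p ∧ T^[p] x = x

/-- There are `η` strictly smaller than the base-two binary entropy `0.94995...` of `log 2 / log 3` and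
`C` such that every real interval `[y - R, y + R]` with `R ≥ 1`, wherever it lies on the real line,
contains at most `C R ^ η` elements of cycles of the 3x+1 map. -/
theorem result : ∃ η C : ℝ, η < Real.binEntropy (Real.log 2 / Real.log 3) / Real.log 2 ∧
    ∀ y R : ℝ, 1 ≤ R → ∀ F : Finset ℤ, (∀ x ∈ F, OnCycle x ∧ |(x : ℝ) - y| ≤ R) →
      (F.card : ℝ) ≤ C * R ^ η := by
  obtain ⟨η, A, -, hη, -, h⟩ := Pool.Agent.TH930.SP.sparse_loc
  refine ⟨η, A, hη, ?_⟩
  intro y R hR F hF
  have h1 := h 1 odd_one _ (Pool.Agent.H319R2.G.tame_periodic _) y R hR F (by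
    intro x hx
    obtain ⟨⟨p, hp, hpx⟩, h⟩ := hF x hx
    exact ⟨⟨p, hp, hpx⟩, h⟩)
  rw [Int.cast_one, abs_one, Real.one_rpow, mul_one] at h1
  exact h1

end Pool.Agent.Results.MP_edb5be_nt.LocalSparsityBelowEntropy
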