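import Mathlib
import Pool.Agent.TH933.CycTypes

set_option autoImplicit false

/-!
The pairs (number of elements, number of odd elements) of the cycles of the 3x+1 map on the integers
are sparse in all windows.
-/

namespace Pool.Agent.Results.MP_edb5be_nt.SparseTypes

/-- The 3x+1 map on the integers. -/
def T (x : ℤ) : ℤ := if x % 2 = 0 then x / 2 else (3 * x + 1) / 2

/-- `Z` is a cycle of `T`. -/
def IsCycle (Z : Finset ℤ) : Prop :=
  ∃ (x : ℤ) (p : ℕ), 1 ≤ p ∧ T^[p] x = x ∧ Z = (Finset.range p).image fun i => T^[i] x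

/-- The number of odd elements of `Z`. -/
def odds (Z : Finset ℤ) : ℕ := (Z.filter fun x => x % 2 = 1).card

/-- `(p, o)` is the type of a cycle: some cycle has exactly `p` elements, `o` of them odd. -/
def IsType (t : ℕ × ℕ) : Prop := ∃ Z : Finset ℤ, IsCycle Z ∧ Z.card = t.1 ∧ odds Z = t.2

/-- `S` is finite and has at most `B` elements. -/
def AtMost (S : Set (ℕ × ℕ)) (B : ℝ) : Prop := S.Finite ∧ (S.ncard : ℝ) ≤ B

/-- Let `h = 0.94995...` be the base-two binary entropy of `log 2 / log 3` and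
`h / (1 + h) < θ < 1 / 2`; `θ = 0.4875` is admissible. There is `C` such that
(1) for infinitely many `P`, for every `a` at most `C P ^ θ` pairs `(p, o)` with `a ≤ p ≤ a + P` are
types of cycles;
(2) for every `P ≥ 1` there are coprime `q`, `r`, where `q ^ 13 ≥ P / C`, such that for every `a` there
is `c` with: at most `C P ^ θ` pairs `(p, o)` with `a ≤ p ≤ a + P` and `q o - r p ≠ c` are types of
cycles;
(3) for every `P ≥ 1` and every `a` at most `C P ^ (12 / 13)` pairs `(p, o)` with `a ≤ p ≤ a + P` are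
types of cycles. -/
theorem result :
    (∀ h θ : ℝ, h = Real.binEntropy (Real.log 2 / Real.log 3) / Real.log 2 →
      h / (1 + h) < θ → θ < 1 / 2 → ∃ C : ℝ, 0 < C ∧
      (∃ᶠ P : ℕ in Filter.atTop, ∀ a : ℕ,
        AtMost {t | IsType t ∧ a ≤ t.1 ∧ t.1 ≤ a + P} (C * (P : ℝ) ^ θ)) ∧
      (∀ P : ℕ, 1 ≤ P → ∃ (q : ℕ) (r : ℤ), 1 ≤ q ∧ IsCoprime (q : ℤ) r ∧ (P : ℝ) ≤ C * (q : ℝ) ^ 13 ∧
        ∀ a : ℕ, ∃ c : ℤ, AtMost {t | IsType t ∧ a ≤ t.1 ∧ t.1 ≤ a + P ∧
          (q : ℤ) * t.2 - r * t.1 ≠ c} (C * (P : ℝ) ^ θ)) ∧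
      (∀ P : ℕ, 1 ≤ P → ∀ a : ℕ,
        AtMost {t | IsType t ∧ a ≤ t.1 ∧ t.1 ≤ a + P} (C * (P : ℝ) ^ (12 / 13 : ℝ)))) ∧
    (Real.binEntropy (Real.log 2 / Real.log 3) / Real.log 2) /
      (1 + Real.binEntropy (Real.log 2 / Real.log 3) / Real.log 2) < 0.4875 := by
  have h3 := Pool.Agent.TH933.Cyc.log3_gt
  have h2 : 0 < Real.log 2 := Real.log_pos (by norm_num)
  have hent : 0 ≤ Real.binEntropy (Real.log 2 / Real.log 3) / Real.log 2 := by
    apply div_nonneg _ h2.le
    apply Real.binEntropy_nonneg (by positivity)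
    rw [div_le_one (by linarith)]
    exact Real.log_le_log (by norm_num) (by norm_num)
  constructor
  · intro h θ hh hθ hθ2
    rw [← hh] at hent
    have hθ0 : 0 < θ := lt_of_le_of_lt (div_nonneg hent (by linarith)) hθ
    have hd : 0 < 1 - θ := by linarith
    have hη : h < θ / (1 - θ) := by
      rw [lt_div_iff₀ hd]
      rw [div_lt_iff₀ (by linarith)] at hθ
      linarith
    have hη1 : θ / (1 - θ) < 1 := by
      rw [div_lt_one hd]; linarith
    have e : (θ / (1 - θ)) / (1 + θ / (1 - θ)) = θ := by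
      field_simp
      ring
    rw [hh] at hη
    obtain ⟨C, hC0, hC1, hC2, hC3⟩ := Pool.Agent.TH933.Cyc.types_main (θ / (1 - θ)) hη
      (div_pos hθ0 hd) hη1
    rw [e] at hC1 hC2
    refine ⟨C, hC0, ?_, ?_, ?_⟩
    · rw [Filter.frequently_atTop]
      intro n
      obtain ⟨P, hP, hg⟩ := Pool.Agent.TH933.Cyc.good_infinite (n + 1)
      refine ⟨P, by omega, fun a => ?_⟩
      exact Pool.Agent.TH933.Cyc.finite_of_bound (fun G hG => hC2 P (by omega) hg a G hG)
    · intro P hP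
      obtain ⟨q, r, hq, hcop, hsz, hl⟩ := hC1 P hP
      refine ⟨q, r, hq, hcop, hsz, fun a => ?_⟩
      obtain ⟨c, hc⟩ := hl a
      exact ⟨c, Pool.Agent.TH933.Cyc.finite_of_bound (fun G hG => hc G hG)⟩
    · intro P hP a
      exact Pool.Agent.TH933.Cyc.finite_of_bound (fun G hG => hC3 P hP a G hG)
  · have hb : Real.binEntropy (Real.log 2 / Real.log 3) / Real.log 2 < 0.951 :=
      Pool.Agent.H319R2.beta_lt
    rw [div_lt_iff₀ (by linarith)]
    linarith

end Pool.Agent.Results.MP_edb5be_nt.SparseTypes
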