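import Pool.Agent.TH930.SP.Loc
import Pool.Agent.H547R3.Cyc

set_option autoImplicit false

/-!
The linear forms in `log 2`, `log 3` attached to all the cycles of the 3x+1 map: summability with an
exponent strictly below the entropy exponent.
-/

namespace Pool.Agent.Results.MP_edb5be_nt.SummableFormsBelowEntropy

open Finset

/-- The 3x+1 map on the integers. -/
def T (x : ℤ) : ℤ := if x % 2 = 0 then x / 2 else (3 * x + 1) / 2

/-- `Z` is a cycle of `T`. -/
def IsCycle (Z : Finset ℤ) : Prop :=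
  ∃ (x : ℤ) (p : ℕ), 1 ≤ p ∧ T^[p] x = x ∧ Z = (Finset.range p).image fun i => T^[i] x

/-- The number of odd elements of `Z`. -/
def odds (Z : Finset ℤ) : ℕ := (Z.filter fun x => x % 2 = 1).card

/-- There are `η` strictly smaller than the base-two binary entropy `0.94995...` of `log 2 / log 3` and
`C` such that for every `N ≥ 1` the sum of `|p log 2 - o log 3|` over all the cycles (`p` elements, `o`
of them odd) whose elements all have absolute value at least `N` is at most `C N ^ (η - 1)`; in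
particular every such cycle satisfies `|p log 2 - o log 3| ≤ C N ^ (η - 1)`. -/
theorem result : ∃ η C : ℝ, η < Real.binEntropy (Real.log 2 / Real.log 3) / Real.log 2 ∧
    ∀ N : ℝ, 1 ≤ N →
      ∀ F : Finset (Finset ℤ), (∀ Z ∈ F, IsCycle Z ∧ ∀ x ∈ Z, N ≤ |(x : ℝ)|) →
        ∑ Z ∈ F, |(Z.card : ℝ) * Real.log 2 - odds Z * Real.log 3| ≤ C * N ^ (η - 1) := by
  classical
  obtain ⟨η, A, hη0, hη, hA, hsp⟩ := Pool.Agent.TH930.SP.sparse_loc
  have hbl := Pool.Agent.H319R2.beta_lt
  refine ⟨η, A * 2 ^ η / (1 - 2 ^ (η - 1)), hη, ?_⟩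
  intro N hN F hF
  have hF' : ∀ Z ∈ F, Pool.Agent.H547R3.IsCycle Z ∧ ∀ x ∈ Z, N ≤ |(x : ℝ)| := hF
  have hdisj : (F : Set (Finset ℤ)).PairwiseDisjoint id := by
    intro Z hZ Z' hZ' hne
    rw [Function.onFun, disjoint_left]
    intro y hy hy'
    exact hne ((hF' Z hZ).1.eq_of_mem (hF' Z' hZ').1 hy hy')
  have hrec := Pool.Agent.H319R2.G.recip_of_sparse η A (by linarith) (by linarith) hA.le
    (Function.periodicPts (Pool.Agent.TH930.EBQ.T 1)) (by
      intro X hX G hG
      have := hsp 1 odd_one _ (Pool.Agent.H319R2.G.tame_periodic _) 0 X hX G (by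
        intro x hx; rw [sub_zero]; exact hG x hx)
      rwa [Int.cast_one, abs_one, Real.one_rpow, mul_one] at this) N hN (F.biUnion id) (by
    intro x hx
    rw [mem_biUnion] at hx
    obtain ⟨Z, hZ, hxZ⟩ := hx
    exact ⟨(hF' Z hZ).1.periodic hxZ, (hF Z hZ).2 x hxZ⟩)
  rw [sum_biUnion hdisj] at hrec
  have hterm : ∀ Z ∈ F, |(Z.card : ℝ) * Real.log 2 - odds Z * Real.log 3| ≤ ∑ x ∈ id Z, 1 / |(x : ℝ)| := by
    intro Z hZ
    have h0 : (0 : ℤ) ∉ Z := by
      intro h
      have := (hF Z hZ).2 0 h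
      simp at this
      linarith
    have h1 := (hF' Z hZ).1.form_le h0
    have h2 : 0 ≤ ∑ x ∈ Z, 1 / |(x : ℝ)| := sum_nonneg (fun _ _ => by positivity)
    simp only [id]
    refine le_trans (le_of_eq ?_) (h1.trans (by linarith))
    rfl
  exact (sum_le_sum hterm).trans hrec

end Pool.Agent.Results.MP_edb5be_nt.SummableFormsBelowEntropy
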